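import Pool.Agent.K48I.Dim

/-!
# MP_ad39f2: curves through general consistent weighted configurations

The statement of Q1 is false. For every `B` there are a consistent weighted configuration `D` and
a degree `d` greater than the sum of its three largest multiplicities, such that for *all* the
weighted configurations with the same precedences, proximities and multiplicities as `D` the
expected dimension in degree `d` is positive, and the actual dimension exceeds it by more than `B`.
-/

set_option autoImplicit false

namespace Pool.Agent.Results.MP_ad39f2_ag.ExpectedDimensionFails

open Pool.Agent.K48I

theorem result (B : ℕ) : ∃ (D : Configuration) (d : ℕ),
    Consistent D ∧ ExceedsThreeLargest D d ∧ ∀ D' : Configuration, SameType D D' →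
      0 < expectedDimension D' d ∧
        expectedDimension D' d + B < (Module.finrank ℂ (sections D' d) : ℤ) :=
  unbounded B

end Pool.Agent.Results.MP_ad39f2_ag.ExpectedDimensionFails
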